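import Pool.Agent.Q260.SL.Stm

set_option autoImplicit false

namespace Pool.Agent.Q137.SL
open Complex Filter Topology Metric Set Polynomial
open Pool.Agent.Q260.SL

theorem t_LG : S_LG := by
  intro n
  have hn1 : (0 : ℝ) < (n : ℝ) + 1 := by positivity
  refine ⟨((n : ℝ) + 1) * (2 * ((n : ℝ) + 1)) ^ n, ?_, ?_⟩
  · have h1 : (1 : ℝ) ≤ (n : ℝ) + 1 := by linarith [Nat.cast_nonneg (α := ℝ) n]
    have h2 : (1 : ℝ) ≤ (2 * ((n : ℝ) + 1)) ^ n := one_le_pow₀ (by linarith)
    nlinarith
  · intro P a δ W hP hδ hδ1 hW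
    let nd : ℕ → ℝ := fun j => j * δ / (n + 1)
    let v : ℕ → ℂ := fun j => a + (nd j : ℂ)
    have hnd0 : ∀ j, 0 ≤ nd j := fun j => by simp only [nd]; positivity
    have hnd1 : ∀ j ∈ Finset.range (n + 1), nd j ≤ δ := by
      intro j hj
      have : (j : ℝ) ≤ n + 1 := by
        have := Finset.mem_range.1 hj
        exact_mod_cast this.le
      simp only [nd]
      rw [div_le_iff₀ hn1]
      nlinarith
    obtain ⟨j0, hj0, hmax⟩ := Finset.exists_max_image (Finset.range (n + 1))
      (fun j => ‖P.eval (v j)‖) ⟨0, by simp⟩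
    refine ⟨nd j0, hnd0 j0, hnd1 j0 hj0, ?_⟩
    intro z hz
    have hsep : ∀ i ∈ Finset.range (n + 1), ∀ j ∈ Finset.range (n + 1), i ≠ j →
        δ / (n + 1) ≤ ‖v i - v j‖ := by
      intro i _ j _ hij
      have e : v i - v j = (((i : ℝ) - j) * (δ / (n + 1)) : ℝ) := by
        simp only [v, nd]
        push_cast
        ring
      rw [e, Complex.norm_real, Real.norm_eq_abs, abs_mul, abs_of_pos (show 0 < δ / ((n : ℝ) + 1) by
        positivity)]
      have h1 : (1 : ℝ) ≤ |(i : ℝ) - j| := by
        have : (1 : ℤ) ≤ |(i : ℤ) - j| := by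
          apply Int.one_le_abs
          omega
        exact_mod_cast this
      have h2 : 0 < δ / ((n : ℝ) + 1) := by positivity
      nlinarith
    have hinj : Set.InjOn v (Finset.range (n + 1) : Set ℕ) := by
      intro i hi j hj hij
      by_contra hne
      have := hsep i hi j hj hne
      rw [hij, sub_self, norm_zero] at this
      have h2 : 0 < δ / ((n : ℝ) + 1) := by positivity
      linarith
    have hdeg : P.degree < (Finset.range (n + 1)).card := by
      rw [Finset.card_range]
      refine lt_of_le_of_lt degree_le_natDegree ?_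
      exact_mod_cast Nat.lt_succ_of_le hP
    have hL := Lagrange.eq_interpolate hinj hdeg
    have hev : P.eval z = ∑ i ∈ Finset.range (n + 1), P.eval (v i) *
        ∏ j ∈ (Finset.range (n + 1)).erase i, ((v i - v j)⁻¹ * (z - v j)) := by
      conv_lhs => rw [hL]
      rw [Lagrange.interpolate_apply, eval_finsetSum]
      refine Finset.sum_congr rfl fun i _ => ?_
      rw [eval_mul, eval_C, Lagrange.basis, eval_prod]
      congr 1
      refine Finset.prod_congr rfl fun j _ => ?_
      simp [Lagrange.basisDivisor]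
    rw [hev]
    have hzv : ∀ j ∈ Finset.range (n + 1), ‖z - v j‖ ≤ 2 * W := by
      intro j hj
      have e : z - v j = (z - a) - (nd j : ℂ) := by simp only [v]; ring
      rw [e]
      refine (norm_sub_le _ _).trans ?_
      rw [Complex.norm_real, Real.norm_eq_abs, abs_of_nonneg (hnd0 j)]
      linarith [hnd1 j hj]
    have hterm : ∀ i ∈ Finset.range (n + 1), ‖P.eval (v i) *
        ∏ j ∈ (Finset.range (n + 1)).erase i, ((v i - v j)⁻¹ * (z - v j))‖ ≤
        ‖P.eval (v j0)‖ * (2 * ((n : ℝ) + 1) * (W / δ)) ^ n := by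
      intro i hi
      rw [norm_mul, norm_prod]
      refine mul_le_mul (hmax i hi) ?_ (Finset.prod_nonneg fun _ _ => norm_nonneg _)
        (norm_nonneg _)
      have hc : ((Finset.range (n + 1)).erase i).card = n := by
        rw [Finset.card_erase_of_mem hi, Finset.card_range]
        rfl
      refine (Finset.prod_le_prod (g := fun _ => 2 * ((n : ℝ) + 1) * (W / δ))
        (fun j _ => norm_nonneg _) (fun j hj => ?_)).trans_eq (by rw [Finset.prod_const, hc])
      have hj' := Finset.mem_of_mem_erase hj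
      have hne : i ≠ j := fun h => (Finset.ne_of_mem_erase hj) h.symm
      rw [norm_mul, norm_inv]
      have h1 := hsep i hi j hj' hne
      have h2 := hzv j hj'
      have h3 : 0 < δ / ((n : ℝ) + 1) := by positivity
      have h4 : ‖v i - v j‖⁻¹ ≤ (δ / ((n : ℝ) + 1))⁻¹ := inv_anti₀ h3 h1
      calc ‖v i - v j‖⁻¹ * ‖z - v j‖ ≤ (δ / ((n : ℝ) + 1))⁻¹ * (2 * W) :=
            mul_le_mul h4 h2 (norm_nonneg _) (by positivity)
        _ = 2 * ((n : ℝ) + 1) * (W / δ) := by field_simp
    refine (norm_sum_le _ _).trans ((Finset.sum_le_sum hterm).trans_eq ?_)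
    rw [Finset.sum_const, Finset.card_range, nsmul_eq_mul, mul_pow]
    push_cast
    ring

end Pool.Agent.Q137.SL
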