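import Pool.Agent.Q260.SL.Stm

set_option autoImplicit false

namespace Pool.Agent.Q137.SL
open Complex Filter Topology Metric Set Polynomial
open Pool.Agent.Q260.SL

/-- antiderivatives of polynomials -/
theorem anti (Q : ℂ[X]) : ∃ A : ℂ[X], derivative A = Q ∧ A.natDegree ≤ Q.natDegree + 1 := by
  refine ⟨∑ i ∈ Finset.range (Q.natDegree + 1), C (Q.coeff i / ((i : ℂ) + 1)) * X ^ (i + 1), ?_, ?_⟩
  · rw [derivative_sum]
    conv_rhs => rw [Q.as_sum_range_C_mul_X_pow]
    refine Finset.sum_congr rfl fun i _ => ?_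
    have hi : ((i : ℂ) + 1) ≠ 0 := by exact_mod_cast Nat.succ_ne_zero i
    rw [derivative_C_mul_X_pow]
    simp only [Nat.add_sub_cancel]
    congr 2
    push_cast
    field_simp
  · refine natDegree_sum_le_of_forall_le _ _ fun i hi => ?_
    refine (natDegree_C_mul_X_pow_le _ _).trans ?_
    have := Finset.mem_range.1 hi
    omega

/-- one integration in the box -/
theorem box (R R' : ℂ → ℂ) (x0 x1 T W c L : ℝ) (hL : 1 ≤ L) (hc : 0 ≤ c) (hW : 0 ≤ W)
    (h01 : x0 ≤ x1)
    (hd : ∀ z : ℂ, x0 ≤ z.re → z.re ≤ x1 → |z.im - T| ≤ W → HasDerivAt R (R' z) z)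
    (hb : ∀ z : ℂ, x0 ≤ z.re → z.re ≤ x1 → |z.im - T| ≤ W → ‖R' z‖ ≤ c * Real.exp (L * (z.re - x0)))
    (h0 : R (x0 + T * I) = 0) (z : ℂ) (hz1 : x0 ≤ z.re) (hz2 : z.re ≤ x1) (hz3 : |z.im - T| ≤ W) :
    ‖R z‖ ≤ (W + 1) * c * Real.exp (L * (z.re - x0)) := by
  have hv : ‖R (x0 + z.im * I)‖ ≤ W * c := by
    have hconv : Convex ℝ {w : ℂ | w.re = x0 ∧ |w.im - T| ≤ W} := by
      intro u hu v hv a b ha hb hab
      refine ⟨?_, ?_⟩
      · simp only [add_re, real_smul, mul_re, ofReal_re, ofReal_im, zero_mul, sub_zero]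
        rw [hu.1, hv.1, ← add_mul, hab, one_mul]
      · have h1 := abs_le.1 hu.2
        have h2 := abs_le.1 hv.2
        simp only [add_im, real_smul, mul_im, ofReal_re, ofReal_im, zero_mul, add_zero]
        have e : a * u.im + b * v.im - T = a * (u.im - T) + b * (v.im - T) := by
          linear_combination T * hab
        rw [e, abs_le]
        constructor
        · nlinarith [mul_le_mul_of_nonneg_left h1.1 ha, mul_le_mul_of_nonneg_left h2.1 hb]
        · nlinarith [mul_le_mul_of_nonneg_left h1.2 ha, mul_le_mul_of_nonneg_left h2.2 hb]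
    have hx : (x0 + T * I : ℂ) ∈ {w : ℂ | w.re = x0 ∧ |w.im - T| ≤ W} := by
      refine ⟨by simp, ?_⟩
      simp [hW]
    have hy : (x0 + z.im * I : ℂ) ∈ {w : ℂ | w.re = x0 ∧ |w.im - T| ≤ W} := by
      refine ⟨by simp, ?_⟩
      simpa using hz3
    have := Convex.norm_image_sub_le_of_norm_hasDerivWithin_le (f := R) (f' := R') (C := c)
      (s := {w : ℂ | w.re = x0 ∧ |w.im - T| ≤ W})
      (fun w hw => (hd w hw.1.ge (by rw [hw.1]; exact h01) hw.2).hasDerivWithinAt)
      (fun w hw => by
        have := hb w hw.1.ge (by rw [hw.1]; exact h01) hw.2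
        rwa [hw.1, sub_self, mul_zero, Real.exp_zero, mul_one] at this) hconv hx hy
    rw [h0, sub_zero] at this
    refine this.trans ?_
    have e : (x0 + z.im * I - (x0 + T * I) : ℂ) = ((z.im - T : ℝ) : ℂ) * I := by
      push_cast; ring
    rw [e, norm_mul, norm_I, mul_one, Complex.norm_real, Real.norm_eq_abs, mul_comm]
    exact mul_le_mul_of_nonneg_right hz3 hc
  have hL0 : 0 < L := by linarith
  have hh := image_norm_le_of_norm_deriv_right_le_deriv_boundary
    (f := fun t : ℝ => R ((t : ℂ) + z.im * I)) (f' := fun t : ℝ => R' ((t : ℂ) + z.im * I))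
    (a := x0) (b := z.re) (B := fun t => W * c + c / L * Real.exp (L * (t - x0)))
    (B' := fun t => c * Real.exp (L * (t - x0)))
    (by
      intro t ht
      have h1 := hd ((t : ℂ) + z.im * I) (by simpa using ht.1) (by simpa using ht.2.trans hz2)
        (by simpa using hz3)
      have h2 : HasDerivAt (fun t : ℝ => ((t : ℂ) + z.im * I)) 1 t := by
        simpa using (Complex.ofRealCLM.hasDerivAt (x := t)).add_const (z.im * I : ℂ)
      have := h1.scomp t h2
      exact this.continuousAt.continuousWithinAt)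
    (by
      intro t ht
      have h1 := hd ((t : ℂ) + z.im * I) (by simpa using ht.1) (by simpa using (ht.2.trans_le hz2).le)
        (by simpa using hz3)
      have h2 : HasDerivAt (fun t : ℝ => ((t : ℂ) + z.im * I)) 1 t := by
        simpa using (Complex.ofRealCLM.hasDerivAt (x := t)).add_const (z.im * I : ℂ)
      have := h1.scomp t h2
      rw [one_smul] at this
      exact this.hasDerivWithinAt)
    (by
      simp only [sub_self, mul_zero, Real.exp_zero, mul_one]
      have : 0 ≤ c / L := by positivity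
      linarith [hv])
    (by
      intro t
      have h1 : HasDerivAt (fun t : ℝ => L * (t - x0)) L t := by
        simpa using ((hasDerivAt_id t).sub_const x0).const_mul L
      have h2 := (h1.exp.const_mul (c / L)).const_add (W * c)
      have h3 : c / L * (Real.exp (L * (t - x0)) * L) = c * Real.exp (L * (t - x0)) := by
        field_simp
      rw [h3] at h2
      exact h2)
    (by
      intro t ht
      have := hb ((t : ℂ) + z.im * I) (by simpa using ht.1) (by simpa using (ht.2.trans_le hz2).le)
        (by simpa using hz3)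
      simpa using this)
    (show z.re ∈ Icc x0 z.re from ⟨hz1, le_rfl⟩)
  simp only [re_add_im] at hh
  refine hh.trans ?_
  have he : 1 ≤ Real.exp (L * (z.re - x0)) := Real.one_le_exp (by
    apply mul_nonneg hL0.le
    linarith)
  have hcL : c / L ≤ c := div_le_self hc hL
  have h1 : W * c ≤ W * c * Real.exp (L * (z.re - x0)) :=
    le_mul_of_one_le_right (mul_nonneg hW hc) he
  have h2 : c / L * Real.exp (L * (z.re - x0)) ≤ c * Real.exp (L * (z.re - x0)) :=
    mul_le_mul_of_nonneg_right hcL (Real.exp_pos _).le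
  nlinarith

theorem t_TY : S_TY := by
  intro k
  induction k with
  | zero =>
    intro h x0 x1 T W E L hL hE hW h01 hd hb
    refine ⟨0, by simp, ?_⟩
    intro z hz1 hz2 hz3
    simpa using hb z hz1 hz2 hz3
  | succ k ih =>
    intro h x0 x1 T W E L hL hE hW h01 hd hb
    obtain ⟨Q, hQ1, hQ2⟩ := ih (fun j => h (j + 1)) x0 x1 T W E L hL hE hW h01
      (fun j hj z => hd (j + 1) (by omega) z) hb
    obtain ⟨A, hA1, hA2⟩ := anti Q
    let z0 : ℂ := x0 + T * I
    refine ⟨A + C (h 0 z0 - A.eval z0), ?_, ?_⟩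
    · rw [natDegree_add_C]
      omega
    · intro z hz1 hz2 hz3
      have := box (fun z => h 0 z - (A + C (h 0 z0 - A.eval z0)).eval z)
        (fun z => h 1 z - Q.eval z) x0 x1 T W ((W + 1) ^ k * E) L hL (by positivity) hW h01
        (fun z h1 h2 h3 => by
          have e1 := hd 0 (by omega) z h1 h2 h3
          have e2 := (A + C (h 0 z0 - A.eval z0)).hasDerivAt z
          rw [derivative_add, derivative_C, add_zero, hA1] at e2
          exact e1.sub e2)
        (fun z h1 h2 h3 => hQ2 z h1 h2 h3)
        (by simp [z0]) z hz1 hz2 hz3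
      refine this.trans_eq ?_
      ring

end Pool.Agent.Q137.SL
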