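import Pool.Agent.Q260.SL.Stm

set_option autoImplicit false

/-! # Basic facts on the derivatives of zeta -/

namespace Pool.Agent.Q137.SL

open Complex Filter Topology Metric Set Polynomial
open Pool.Agent.H24R2.JP (HH XX Om)
open Pool.Agent.Q260.SL
open scoped ComplexConjugate

theorem conj_iter (k : ℕ) (s : ℂ) :
    iteratedDeriv k riemannZeta (conj s) = conj (iteratedDeriv k riemannZeta s) := by
  have h : ∀ n : ℕ, (starRingEnd ℂ) ∘ iteratedDeriv n riemannZeta ∘ (starRingEnd ℂ) =
      iteratedDeriv n riemannZeta := by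
    intro n
    induction n with
    | zero =>
      funext w
      rw [iteratedDeriv_zero]
      simp only [Function.comp]
      rw [riemannZeta_conj, Complex.conj_conj]
    | succ n ih =>
      rw [iteratedDeriv_succ]
      conv_rhs => rw [← ih]
      rw [deriv_conj_conj]
  have h1 := congrFun (h k) s
  simp only [Function.comp] at h1
  rw [← h1, Complex.conj_conj]

theorem an0 (z : ℂ) (hz : 0 < z.im) : AnalyticAt ℂ (fun w : ℂ => riemannZeta (1 / 2 - w)) z := by
  have hU : IsOpen {w : ℂ | 0 < w.im} := isOpen_lt continuous_const Complex.continuous_im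
  refine DifferentiableOn.analyticAt (s := {w : ℂ | 0 < w.im}) ?_ (hU.mem_nhds hz)
  intro w hw
  have hw1 : (1 / 2 - w : ℂ) ≠ 1 := by
    intro h
    have := congrArg Complex.im h
    have hw' : 0 < w.im := hw
    simp at this
    linarith
  exact ((differentiableAt_riemannZeta hw1).comp w
    ((differentiableAt_const _).sub differentiableAt_id)).differentiableWithinAt

theorem anZ (k : ℕ) (z : ℂ) (hz : 0 < z.im) : AnalyticAt ℂ (Zk k) z := by
  have h := (an0 z hz).iterated_deriv k
  have e : Zk k = deriv^[k] (fun w : ℂ => riemannZeta (1 / 2 - w)) := by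
    funext w
    unfold Zk
    rw [iteratedDeriv_eq_iterate]
  rw [e]
  exact h

theorem t_ZA : S_ZA := by
  refine ⟨?_, ?_, ?_⟩
  · intro k z hz
    refine ⟨anZ k z hz, ?_, ?_⟩
    · have h := (anZ k z hz).differentiableAt.hasDerivAt
      have e : deriv (Zk k) z = Zk (k + 1) z := by
        have : Zk k = iteratedDeriv k (fun w : ℂ => riemannZeta (1 / 2 - w)) := rfl
        rw [this, ← iteratedDeriv_succ]
        rfl
      rwa [e] at h
    · have := congrFun (iteratedDeriv_comp_const_sub k riemannZeta (1 / 2 : ℂ)) z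
      unfold Zk
      rw [this, smul_eq_mul]
  · intro z hz
    have h0 : Zk 0 z = riemannZeta (1 / 2 - z) := by
      unfold Zk
      rw [iteratedDeriv_zero]
    have hs : (1 / 2 - z : ℂ) ≠ 0 := by
      intro h
      have := congrArg Complex.im h
      simp at this
      linarith
    have hs1 : (1 / 2 + z : ℂ) ≠ 0 := by
      intro h
      have := congrArg Complex.im h
      simp at this
      linarith
    have hG : Gammaℝ (1 / 2 - z) ≠ 0 := by
      intro h
      obtain ⟨n, hn⟩ := Gammaℝ_eq_zero_iff.1 h
      have := congrArg Complex.im hn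
      simp at this
      linarith
    have hc0 : completedRiemannZeta₀ (1 / 2 + z) = completedRiemannZeta₀ (1 / 2 - z) := by
      rw [← completedRiemannZeta₀_one_sub]
      congr 1
      ring
    unfold Gk
    rw [h0, riemannZeta_def_of_ne_zero hs]
    unfold HM HH XX
    rw [show (1 / 2 + -z : ℂ) = 1 / 2 - z by ring, completedRiemannZeta_eq, hc0,
      show (1 - (1 / 2 - z) : ℂ) = 1 / 2 + z by ring]
    rw [div_mul_eq_mul_div, mul_comm (4 * (-z) ^ 2 - 1) _, ← mul_assoc, mul_comm _ (Gammaℝ _),
      mul_assoc, mul_div_cancel_left₀ _ hG]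
    have key : (1 / (1 / 2 - z) + 1 / (1 / 2 + z)) * ((1 / 2 - z) * (1 / 2 + z)) = 1 := by
      rw [add_mul, ← mul_assoc, one_div_mul_cancel hs, mul_comm (1 / 2 - z) (1 / 2 + z),
        ← mul_assoc (1 / (1 / 2 + z)), one_div_mul_cancel hs1]
      ring
    linear_combination (-4) * key
  · intro k s _
    exact conj_iter k s

end Pool.Agent.Q137.SL
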